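import Pool.Agent.Helper23.MT.Goals

set_option autoImplicit false

open Pool.Agent.Helper23.MT

namespace Pool.Agent.Helper56.MT

theorem cst_le (k : ℕ) (z : ℤ) : cst k z ≤ 5 := by
  induction k generalizing z with
  | zero => simp [cst]
  | succ k ih =>
    have h := ih (U z)
    unfold cst
    split_ifs <;> omega

theorem one_le_pot (z : ℤ) (c : ℕ) : 1 ≤ pot z c := by
  unfold pot
  split_ifs <;> norm_num

theorem pot_le (z : ℤ) (c : ℕ) : pot z c ≤ 64 := by
  unfold pot
  split_ifs <;> norm_num

/-- the local inequality -/
theorem local_ineq (z a b : ℤ) (c : ℕ) (hc : c ≤ 5) (ha : a = 3 * z) :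
    (if z % 7 = 4 then (63 / 64 : ℝ) * pot b 0 else 0) +
      (if c = 5 then (1 / 64 : ℝ) * pot a 0 else pot a (c + 1)) ≤ pot z c := by
  subst ha
  have hb := pot_le b 0
  have h7 : z % 7 = 0 ∨ z % 7 = 1 ∨ z % 7 = 2 ∨ z % 7 = 3 ∨ z % 7 = 4 ∨ z % 7 = 5 ∨ z % 7 = 6 := by
    omega
  have h3 : (3 * z) % 7 = (3 * (z % 7)) % 7 := by omega
  rcases h7 with h | h | h | h | h | h | h <;>
  · have e : (3 * z) % 7 = (3 * (z % 7)) % 7 := h3
    rw [h] at e
    norm_num at e
    interval_cases c <;> simp [pot, h, e] <;> (try norm_num) <;> (try (split_ifs <;> norm_num))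

noncomputable def wt (k : ℕ) (z : ℤ) : ℝ :=
  ((63 : ℝ) / 64) ^ (ones k z) * ((1 : ℝ) / 64) ^ (wraps k z)

theorem wt_nonneg (k : ℕ) (z : ℤ) : 0 ≤ wt k z := by
  unfold wt; positivity

theorem main_ind (k : ℕ) (y : ℤ) (A : Finset ℤ) (hA : ∀ z ∈ A, Surv k z ∧ U^[k] z = y) :
    ∑ z ∈ A, wt k z * pot z (cst k z) ≤ 64 := by
  induction k generalizing A with
  | zero =>
    have hsub : A ⊆ {y} := by
      intro z hz
      have := (hA z hz).2
      simpa using this
    calc ∑ z ∈ A, wt 0 z * pot z (cst 0 z) ≤ ∑ z ∈ ({y} : Finset ℤ), wt 0 z * pot z (cst 0 z) := by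
          refine Finset.sum_le_sum_of_subset_of_nonneg hsub ?_
          intro i _ _
          exact mul_nonneg (wt_nonneg _ _) (zero_le_one.trans (one_le_pot _ _))
      _ ≤ 64 := by
          rw [Finset.sum_singleton]
          have := pot_le y (cst 0 y)
          simpa [wt, ones, wraps] using this
  | succ k ih =>
    have hB : ∀ z ∈ A.image U, Surv k z ∧ U^[k] z = y := by
      intro z hz
      obtain ⟨w, hw, rfl⟩ := Finset.mem_image.mp hz
      obtain ⟨h1, h2⟩ := hA w hw
      refine ⟨fun i hi => ?_, ?_⟩
      · have := h1 (i + 1) (by omega)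
        rwa [Function.iterate_succ_apply] at this
      · rwa [Function.iterate_succ_apply] at h2
    refine le_trans ?_ (ih (A.image U) hB)
    rw [← Finset.sum_fiberwise_of_maps_to (g := U) (t := A.image U)
      (fun z hz => Finset.mem_image_of_mem U hz)]
    refine Finset.sum_le_sum ?_
    intro z' _
    set b : ℤ := (3 * z' + 2) / 7 with hb
    have hw := wt_nonneg k z'
    have hc := cst_le k z'
    have hloc := local_ineq z' (3 * z') b (cst k z') hc rfl
    -- the fiber is contained in a set of at most two elements
    have hfib : ∀ z ∈ A.filter (fun z => U z = z'),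
        (z % 3 = 0 ∧ z = 3 * z') ∨ (z % 3 = 2 ∧ z = b ∧ z' % 7 = 4) := by
      intro z hz
      rw [Finset.mem_filter] at hz
      obtain ⟨hz, hU⟩ := hz
      have h1 : z % 3 ≠ 1 := by
        have := (hA z hz).1 0 (by omega)
        simpa using this
      rcases (by omega : z % 3 = 0 ∨ z % 3 = 2) with h0 | h0
      · left
        refine ⟨h0, ?_⟩
        have := U_zero_mod h0
        omega
      · right
        have := U_two_mod h0
        rw [hU] at this
        refine ⟨h0, ?_, ?_⟩ <;> omega
    have hterm : ∀ z ∈ A.filter (fun z => U z = z'),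
        wt (k + 1) z * pot z (cst (k + 1) z) =
          wt k z' * (if z % 3 = 2 then (63 / 64 : ℝ) * pot z 0 else
            if cst k z' = 5 then (1 / 64 : ℝ) * pot z 0 else pot z (cst k z' + 1)) := by
      intro z hz
      have hU := (Finset.mem_filter.mp hz).2
      unfold wt
      by_cases h2 : z % 3 = 2
      · simp only [ones, wraps, cst, h2, if_true, hU]
        ring
      · by_cases h5 : cst k z' = 5
        · simp only [ones, wraps, cst, h2, if_false, hU, h5, if_true]
          ring
        · simp only [ones, wraps, cst, h2, if_false, hU, h5]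
    rw [Finset.sum_congr rfl hterm, ← Finset.mul_sum]
    refine mul_le_mul_of_nonneg_left ?_ hw
    refine le_trans ?_ hloc
    -- split the fiber by residue
    rw [← Finset.sum_filter_add_sum_filter_not (A.filter (fun z => U z = z')) (fun z => z % 3 = 2)]
    refine add_le_add ?_ ?_
    · by_cases h4 : z' % 7 = 4
      · rw [if_pos h4]
        calc _ ≤ ∑ z ∈ ({b} : Finset ℤ), (63 / 64 : ℝ) * pot z 0 := by
              have hs : (A.filter (fun z => U z = z')).filter (fun z => z % 3 = 2) ⊆ {b} := by
                intro z hz
                rw [Finset.mem_filter] at hz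
                rcases hfib z hz.1 with h | h
                · omega
                · simpa using h.2.1
              rw [Finset.sum_congr rfl (g := fun z => (63 / 64 : ℝ) * pot z 0) (fun z hz => by
                rw [if_pos (Finset.mem_filter.mp hz).2])]
              refine Finset.sum_le_sum_of_subset_of_nonneg hs ?_
              intro i _ _
              have := one_le_pot i 0
              positivity
          _ = _ := by rw [Finset.sum_singleton]
      · rw [if_neg h4]
        apply le_of_eq
        apply Finset.sum_eq_zero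
        intro z hz
        rw [Finset.mem_filter] at hz
        exfalso
        rcases hfib z hz.1 with h | h
        · omega
        · exact h4 h.2.2
    · have hs : (A.filter (fun z => U z = z')).filter (fun z => ¬ z % 3 = 2) ⊆ {3 * z'} := by
        intro z hz
        rw [Finset.mem_filter] at hz
        rcases hfib z hz.1 with h | h
        · simpa using h.2
        · omega
      rw [Finset.sum_congr rfl (g := fun z => (if cst k z' = 5 then (1 / 64 : ℝ) * pot z 0
        else pot z (cst k z' + 1))) (fun z hz => by rw [if_neg (Finset.mem_filter.mp hz).2])]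
      refine le_trans (Finset.sum_le_sum_of_subset_of_nonneg hs ?_) ?_
      · intro i _ _
        have h1 := one_le_pot i 0
        have h2 := one_le_pot i (cst k z' + 1)
        split_ifs <;> positivity
      · rw [Finset.sum_singleton]

theorem gKRAFT : GKRAFT := by
  intro k y A hA
  refine le_trans (Finset.sum_le_sum ?_) (main_ind k y A hA)
  intro z _
  have h1 := one_le_pot z (cst k z)
  have h2 := wt_nonneg k z
  have : wt k z = wt k z * 1 := by ring
  calc ((63 : ℝ) / 64) ^ (ones k z) * ((1 : ℝ) / 64) ^ (wraps k z) = wt k z * 1 := by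
        rw [← this]; rfl
    _ ≤ wt k z * pot z (cst k z) := mul_le_mul_of_nonneg_left h1 h2

end Pool.Agent.Helper56.MT
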