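import Pool.Agent.Helper57.MT.Goals

/-!
# MP_69be96_nt, project MC2, packet M20
-/

set_option autoImplicit false

open scoped Classical

namespace Pool.Agent.Helper56.MT

theorem m20 : Pool.Agent.Helper57.MT.StmtM20 := by
  rintro ⟨c, hc, h⟩ k
  have hK : (k : ℝ) ≤ c * Real.log ((⌈Real.exp (k / c)⌉₊ + 1 : ℕ) : ℝ) := by
    have h1 : Real.exp (k / c) ≤ ((⌈Real.exp (k / c)⌉₊ + 1 : ℕ) : ℝ) := by
      push_cast
      have := Nat.le_ceil (Real.exp (k / c))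
      linarith
    have h2 : (k : ℝ) / c ≤ Real.log ((⌈Real.exp (k / c)⌉₊ + 1 : ℕ) : ℝ) := by
      rw [Real.le_log_iff_exp_le (lt_of_lt_of_le (Real.exp_pos _) h1)]
      exact h1
    rw [div_le_iff₀ hc] at h2
    linarith
  obtain ⟨X, hX⟩ := h (⌈Real.exp (k / c)⌉₊ + 1) (by omega)
  refine ⟨⌈Real.exp (k / c)⌉₊ + 1, c, hc, X, fun x hx H hH h1 h2 => ?_⟩
  refine (hX x hx H hH h1 h2).trans ?_
  refine Nat.cast_le.2 (Set.ncard_le_ncard ?_ ?_)
  · rintro m ⟨h3, h4, h5⟩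
    refine ⟨h3, h4, ?_⟩
    exact_mod_cast lt_of_le_of_lt hK h5
  · refine (Set.finite_Iic ⌊x - c * Pool.Agent.Helper88.CR.Rec x⌋₊).subset ?_
    rintro m ⟨h3, -, -⟩
    exact Nat.le_floor (by linarith)

end Pool.Agent.Helper56.MT
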